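import Mathlib

set_option autoImplicit false

namespace Pool.Agent.Results.MP_46c8ea_co.ExactFormula

open Finset Filter Nat

/-- The vertex `j(t) = -n + x(1) + ... + x(t)` of the walk with step list `x`. -/
def vertex (n : ℕ) (x : List ℤ) (t : ℕ) : ℤ := -(n : ℤ) + (x.take t).sum

/-- `x` is a walk from `-n` to `n`: at least two steps, all steps even and nonzero, total `2n`. -/
def IsWalk (n : ℕ) (x : List ℤ) : Prop :=
  2 ≤ x.length ∧ (∀ s ∈ x, Even s ∧ s ≠ 0) ∧ x.sum = 2 * (n : ℤ)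

/-- No intermediate vertex is `n` or `-n`. -/
def IsAdmissible (n : ℕ) (x : List ℤ) : Prop :=
  ∀ t : ℕ, 1 ≤ t → t < x.length → vertex n x t ≠ (n : ℤ) ∧ vertex n x t ≠ -(n : ℤ)

/-- The weight `h₁(x)`, the product over the intermediate vertices of `1 / (n^2 - j(t)^2)`. -/
noncomputable def h1 (n : ℕ) (x : List ℤ) : ℝ :=
  ∏ t ∈ Finset.Ico 1 x.length, 1 / ((n : ℝ) ^ 2 - (vertex n x t : ℝ) ^ 2)

/-- Admissible walks from `-n` to `n` with steps in `{-2, 4}` and exactly `κ` steps `-2`. -/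
def X (n κ : ℕ) : Set (List ℤ) :=
  {x | IsWalk n x ∧ IsAdmissible n x ∧ (∀ s ∈ x, s = -2 ∨ s = 4) ∧ x.count (-2) = κ}

/-- `B_κ(n)`, the sum of the weights of the walks in `X_n(κ)` (a finite set). -/
noncomputable def B (κ n : ℕ) : ℝ := ∑ᶠ x ∈ X n κ, h1 n x

/-- All words with `a` letters `4` and `b` letters `-2`. -/
def words : ℕ → ℕ → Finset (List ℤ)
  | 0, 0 => {[]}
  | (a + 1), 0 => (words a 0).image (List.cons 4)
  | 0, (b + 1) => (words 0 b).image (List.cons (-2))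
  | (a + 1), (b + 1) =>
      (words a (b + 1)).image (List.cons 4) ∪ (words (a + 1) b).image (List.cons (-2))

lemma mem_words (x : List ℤ) : ∀ a b : ℕ, x ∈ words a b ↔
    (∀ s ∈ x, s = -2 ∨ s = 4) ∧ x.count 4 = a ∧ x.count (-2) = b := by
  induction x with
  | nil =>
    intro a b
    rcases a with _ | a <;> rcases b with _ | b <;> simp [words]
  | cons s x ih =>
    intro a b
    rcases a with _ | a <;> rcases b with _ | b
    · simp only [words, mem_singleton, reduceCtorEq, false_iff, not_and]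
      intro h h4
      rcases h s (by simp) with rfl | rfl
      · simp
      · simp at h4
    · simp only [words, mem_image, List.cons.injEq]
      constructor
      · rintro ⟨y, hy, rfl, rfl⟩
        obtain ⟨h1, h2, h3⟩ := (ih 0 b).mp hy
        refine ⟨?_, ?_, ?_⟩
        · intro t ht
          rcases List.mem_cons.mp ht with rfl | ht
          · left; rfl
          · exact h1 t ht
        · simp [h2]
        · simp [h3]
      · rintro ⟨h1, h2, h3⟩
        rcases h1 s (by simp) with rfl | rfl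
        · refine ⟨x, (ih 0 b).mpr ⟨fun t ht => h1 t (by simp [ht]), ?_, ?_⟩, rfl, rfl⟩
          · simpa using h2
          · simpa using h3
        · simp at h2
    · simp only [words, mem_image, List.cons.injEq]
      constructor
      · rintro ⟨y, hy, rfl, rfl⟩
        obtain ⟨h1, h2, h3⟩ := (ih a 0).mp hy
        refine ⟨?_, ?_, ?_⟩
        · intro t ht
          rcases List.mem_cons.mp ht with rfl | ht
          · right; rfl
          · exact h1 t ht
        · simp [h2]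
        · simp [h3]
      · rintro ⟨h1, h2, h3⟩
        rcases h1 s (by simp) with rfl | rfl
        · simp at h3
        · refine ⟨x, (ih a 0).mpr ⟨fun t ht => h1 t (by simp [ht]), ?_, ?_⟩, rfl, rfl⟩
          · simpa using h2
          · simpa using h3
    · simp only [words, mem_union, mem_image, List.cons.injEq]
      constructor
      · rintro (⟨y, hy, rfl, rfl⟩ | ⟨y, hy, rfl, rfl⟩)
        · obtain ⟨h1, h2, h3⟩ := (ih a (b + 1)).mp hy
          refine ⟨?_, ?_, ?_⟩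
          · intro t ht
            rcases List.mem_cons.mp ht with rfl | ht
            · right; rfl
            · exact h1 t ht
          · simp [h2]
          · simp [h3]
        · obtain ⟨h1, h2, h3⟩ := (ih (a + 1) b).mp hy
          refine ⟨?_, ?_, ?_⟩
          · intro t ht
            rcases List.mem_cons.mp ht with rfl | ht
            · left; rfl
            · exact h1 t ht
          · simp [h2]
          · simp [h3]
      · rintro ⟨h1, h2, h3⟩
        rcases h1 s (by simp) with rfl | rfl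
        · right
          refine ⟨x, (ih (a + 1) b).mpr ⟨fun t ht => h1 t (by simp [ht]), ?_, ?_⟩, rfl, rfl⟩
          · simpa using h2
          · simpa using h3
        · left
          refine ⟨x, (ih a (b + 1)).mpr ⟨fun t ht => h1 t (by simp [ht]), ?_, ?_⟩, rfl, rfl⟩
          · simpa using h2
          · simpa using h3

/-- Weight of the intermediate vertices of a walk starting at `j`. -/
noncomputable def P (n : ℕ) : ℤ → List ℤ → ℝ
  | _, [] => 1
  | _, [_] => 1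
  | j, s :: s' :: x => 1 / ((n : ℝ) ^ 2 - ((j + s : ℤ) : ℝ) ^ 2) * P n (j + s) (s' :: x)

lemma P_eq (n : ℕ) (x : List ℤ) : ∀ j : ℤ,
    P n j x = ∏ t ∈ Finset.Ico 1 x.length, 1 / ((n : ℝ) ^ 2 - ((j + (x.take t).sum : ℤ) : ℝ) ^ 2) := by
  induction x with
  | nil => intro j; simp [P]
  | cons s x ih =>
    intro j
    rcases x with _ | ⟨s', y⟩
    · simp [P]
    · rw [P, ih (j + s)]
      have hlen : (s :: s' :: y).length = (s' :: y).length + 1 := rfl
      rw [hlen]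
      have h1 : (1 : ℕ) < (s' :: y).length + 1 := by simp
      rw [Finset.prod_eq_prod_Ico_succ_bot h1]
      congr 1
      · simp
      · rw [Finset.prod_Ico_eq_prod_range, Finset.prod_Ico_eq_prod_range]
        have : (s' :: y).length + 1 - (1 + 1) = (s' :: y).length - 1 := by omega
        rw [this]
        apply Finset.prod_congr rfl
        intro t _
        have h2 : 1 + 1 + t = (1 + t) + 1 := by ring
        rw [h2, List.take_succ_cons, List.sum_cons]
        rw [add_assoc]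

/-- Vertex weight after `a` steps `4` and `b` steps `-2` remain. -/
noncomputable def w (n a b : ℕ) : ℝ :=
  1 / ((n : ℝ) ^ 2 - ((n : ℝ) - 4 * a + 2 * b) ^ 2)

/-- The transfer recursion. -/
noncomputable def K (n : ℕ) : ℕ → ℕ → ℝ
  | 0, 0 => 1
  | (a + 1), 0 => w n (a + 1) 0 * K n a 0
  | 0, (b + 1) => w n 0 (b + 1) * K n 0 b
  | (a + 1), (b + 1) => w n (a + 1) (b + 1) * (K n a (b + 1) + K n (a + 1) b)

lemma K_00 (n : ℕ) : K n 0 0 = 1 := by rw [K]

lemma K_s0 (n a : ℕ) : K n (a + 1) 0 = w n (a + 1) 0 * K n a 0 := by rw [K]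

lemma K_0s (n b : ℕ) : K n 0 (b + 1) = w n 0 (b + 1) * K n 0 b := by rw [K]

lemma K_ss (n a b : ℕ) :
    K n (a + 1) (b + 1) = w n (a + 1) (b + 1) * (K n a (b + 1) + K n (a + 1) b) := by rw [K]

/-- Total weight of the words with `a` letters `4` and `b` letters `-2`. -/
noncomputable def S (n a b : ℕ) : ℝ :=
  ∑ x ∈ words a b, P n ((n : ℤ) - 4 * a + 2 * b) x

lemma sum_cons (n a b : ℕ) (j s : ℤ) (h : j + s = (n : ℤ) - 4 * a + 2 * b)
    (hab : a ≠ 0 ∨ b ≠ 0) :
    ∑ y ∈ words a b, P n j (s :: y) = w n a b * S n a b := by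
  rw [S, Finset.mul_sum]
  apply Finset.sum_congr rfl
  intro y hy
  rcases y with _ | ⟨s', y⟩
  · have := (mem_words [] a b).mp hy
    simp at this
    omega
  · rw [P, h, w]
    congr 2
    push_cast
    ring

lemma cons_disj (s s' : ℤ) (h : s ≠ s') (A A' : Finset (List ℤ)) :
    Disjoint (A.image (List.cons s)) (A'.image (List.cons s')) := by
  rw [Finset.disjoint_left]
  intro x hx hx'
  obtain ⟨y, _, rfl⟩ := Finset.mem_image.mp hx
  obtain ⟨y', _, h2⟩ := Finset.mem_image.mp hx'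
  exact h (List.cons.inj h2).1.symm

lemma S_K (n : ℕ) : ∀ a b : ℕ, (a ≠ 0 ∨ b ≠ 0) → w n a b * S n a b = K n a b := by
  intro a
  induction a with
  | zero =>
    intro b
    induction b with
    | zero => intro h; simp at h
    | succ b ihb =>
      intro _
      rw [K, S, words, Finset.sum_image (by intro x _ y _ h; exact (List.cons.inj h).2)]
      rcases Nat.eq_zero_or_pos b with h0 | hb
      · subst h0
        simp [words, P, K]
      · rw [sum_cons n 0 b _ _ (by push_cast; ring) (Or.inr (by omega)), ihb (Or.inr (by omega))]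
  | succ a iha =>
    intro b
    induction b with
    | zero =>
      intro _
      rw [K, S, words, Finset.sum_image (by intro x _ y _ h; exact (List.cons.inj h).2)]
      rcases Nat.eq_zero_or_pos a with h0 | ha
      · subst h0
        simp [words, P, K]
      · rw [sum_cons n a 0 _ _ (by push_cast; ring) (Or.inl (by omega)), iha 0 (Or.inl (by omega))]
    | succ b ihb =>
      intro _
      rw [K, S, words, Finset.sum_union (cons_disj _ _ (by norm_num) _ _),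
        Finset.sum_image (by intro x _ y _ h; exact (List.cons.inj h).2),
        Finset.sum_image (by intro x _ y _ h; exact (List.cons.inj h).2),
        sum_cons n a (b + 1) _ _ (by push_cast; ring) (Or.inr (by omega)),
        sum_cons n (a + 1) b _ _ (by push_cast; ring) (Or.inl (by omega)),
        iha (b + 1) (Or.inr (by omega)), ihb (Or.inl (by omega))]

lemma S_succ (n a b : ℕ) : S n (a + 1) (b + 1) = K n a (b + 1) + K n (a + 1) b := by
  rw [S, words, Finset.sum_union (cons_disj _ _ (by norm_num) _ _),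
    Finset.sum_image (by intro x _ y _ h; exact (List.cons.inj h).2),
    Finset.sum_image (by intro x _ y _ h; exact (List.cons.inj h).2),
    sum_cons n a (b + 1) _ _ (by push_cast; ring) (Or.inr (by omega)),
    sum_cons n (a + 1) b _ _ (by push_cast; ring) (Or.inl (by omega)),
    S_K n a (b + 1) (Or.inr (by omega)), S_K n (a + 1) b (Or.inl (by omega))]

lemma sum_of_counts (x : List ℤ) (h : ∀ s ∈ x, s = -2 ∨ s = 4) :
    x.sum = 4 * (x.count 4 : ℤ) - 2 * (x.count (-2) : ℤ) := by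
  induction x with
  | nil => simp
  | cons s x ih =>
    have ih' := ih (fun t ht => h t (by simp [ht]))
    rcases h s (by simp) with rfl | rfl
    · rw [List.sum_cons, ih']
      simp
      ring
    · rw [List.sum_cons, ih']
      simp
      ring

lemma length_of_counts (x : List ℤ) (h : ∀ s ∈ x, s = -2 ∨ s = 4) :
    x.length = x.count 4 + x.count (-2) := by
  induction x with
  | nil => simp
  | cons s x ih =>
    have ih' := ih (fun t ht => h t (by simp [ht]))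
    rcases h s (by simp) with rfl | rfl
    · simp [ih']; ring
    · simp [ih']; ring

/-- The walks counted by `B_3(2m+1)` are the admissible words with `m+2` letters `4` and three
letters `-2`. -/
lemma X_eq (m : ℕ) : X (2 * m + 1) 3 = {x | x ∈ words (m + 2) 3 ∧ IsAdmissible (2 * m + 1) x} := by
  ext x
  simp only [X, IsWalk, Set.mem_ofPred_eq, mem_words]
  constructor
  · rintro ⟨⟨_, _, h2⟩, h3, h4, h5⟩
    refine ⟨⟨h4, ?_, h5⟩, h3⟩
    have := sum_of_counts x h4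
    rw [h2, h5] at this
    push_cast at this
    omega
  · rintro ⟨⟨h1, h2, h3⟩, h4⟩
    refine ⟨⟨?_, ?_, ?_⟩, h4, h1, h3⟩
    · rw [length_of_counts x h1]; omega
    · intro s hs
      rcases h1 s hs with rfl | rfl
      · exact ⟨by decide, by norm_num⟩
      · exact ⟨by decide, by norm_num⟩
    · rw [sum_of_counts x h1, h2, h3]
      push_cast
      ring

lemma X_finite (m : ℕ) : (X (2 * m + 1) 3).Finite := by
  rw [X_eq]
  exact (words (m + 2) 3).finite_toSet.subset (fun x hx => hx.1)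

lemma h1_eq_zero (n : ℕ) (x : List ℤ) (h : ¬ IsAdmissible n x) : h1 n x = 0 := by
  unfold IsAdmissible at h
  push Not at h
  obtain ⟨t, ht1, ht2, ht3⟩ := h
  unfold h1
  apply Finset.prod_eq_zero (Finset.mem_Ico.mpr ⟨ht1, ht2⟩)
  by_cases hv : vertex n x t = (n : ℤ)
  · rw [hv]; simp
  · rw [ht3 hv]; simp

lemma B_eq (m : ℕ) : B 3 (2 * m + 1) = K (2 * m + 1) (m + 1) 3 + K (2 * m + 1) (m + 2) 2 := by
  have h1 : B 3 (2 * m + 1) = ∑ᶠ x ∈ ((words (m + 2) 3 : Finset (List ℤ)) : Set (List ℤ)),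
      h1 (2 * m + 1) x := by
    unfold B
    apply finsum_mem_inter_support_eq
    ext x
    rw [X_eq]
    simp only [Set.mem_inter_iff, Set.mem_ofPred_eq, Function.mem_support, Finset.mem_coe]
    constructor
    · rintro ⟨⟨h1, _⟩, h2⟩
      exact ⟨h1, h2⟩
    · rintro ⟨h1, h2⟩
      refine ⟨⟨h1, ?_⟩, h2⟩
      by_contra hcon
      exact h2 (h1_eq_zero _ _ hcon)
  rw [h1, finsum_mem_coe_finset, ← S_succ, S]
  apply Finset.sum_congr rfl
  intro x _
  rw [P_eq]
  unfold Pool.Agent.Results.MP_46c8ea_co.ExactFormula.h1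
  apply Finset.prod_congr rfl
  intro t _
  unfold vertex
  congr 4
  push_cast
  ring

/-- Reflection symmetry of the vertex weights. -/
lemma w_symm (m a b a' b' : ℕ) (ha : a + a' = m + 2) (hb : b + b' = 3) :
    w (2 * m + 1) a b = w (2 * m + 1) a' b' := by
  unfold w
  have h1 : (a : ℝ) + a' = m + 2 := by exact_mod_cast ha
  have h2 : (b : ℝ) + b' = 3 := by exact_mod_cast hb
  have e1 : (a' : ℝ) = m + 2 - a := by linarith
  have e2 : (b' : ℝ) = 3 - b := by linarith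
  rw [e1, e2]
  push_cast
  congr 1
  ring

/-- Cutting the walks at their second step `-2`. -/
lemma cut (m : ℕ) : ∀ A c : ℕ, A + c = m + 1 →
    ∑ a ∈ Finset.range (A + 1), K (2 * m + 1) a 1 * K (2 * m + 1) (m + 2 - a) 1
      = K (2 * m + 1) A 2 * K (2 * m + 1) c 1 + K (2 * m + 1) A 3 * K (2 * m + 1) c 0 := by
  intro A
  induction A with
  | zero =>
    intro c hc
    have hc' : c = m + 1 := by omega
    subst hc'
    simp only [zero_add, Finset.sum_range_one, Nat.sub_zero]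
    have e1 : K (2 * m + 1) (m + 2) 1
        = w (2 * m + 1) (m + 2) 1 * (K (2 * m + 1) (m + 1) 1 + K (2 * m + 1) (m + 2) 0) :=
      K_ss _ _ _
    have e2 : K (2 * m + 1) (m + 2) 0 = w (2 * m + 1) (m + 2) 0 * K (2 * m + 1) (m + 1) 0 :=
      K_s0 _ _
    have e3 : K (2 * m + 1) 0 2 = w (2 * m + 1) 0 2 * K (2 * m + 1) 0 1 := K_0s _ _
    have e4 : K (2 * m + 1) 0 3 = w (2 * m + 1) 0 3 * K (2 * m + 1) 0 2 := K_0s _ _
    rw [e1, e2, e4, e3, w_symm m (m + 2) 1 0 2 (by omega) (by omega),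
      w_symm m (m + 2) 0 0 3 (by omega) (by omega)]
    ring
  | succ A ih =>
    intro c hc
    rw [Finset.sum_range_succ, ih (c + 1) (by omega)]
    have h1 : m + 2 - (A + 1) = c + 1 := by omega
    rw [h1]
    have e1 : K (2 * m + 1) (A + 1) 2
        = w (2 * m + 1) (A + 1) 2 * (K (2 * m + 1) A 2 + K (2 * m + 1) (A + 1) 1) := K_ss _ _ _
    have e2 : K (2 * m + 1) (A + 1) 3
        = w (2 * m + 1) (A + 1) 3 * (K (2 * m + 1) A 3 + K (2 * m + 1) (A + 1) 2) := K_ss _ _ _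
    have e3 : K (2 * m + 1) (c + 1) 1
        = w (2 * m + 1) (c + 1) 1 * (K (2 * m + 1) c 1 + K (2 * m + 1) (c + 1) 0) := K_ss _ _ _
    have e4 : K (2 * m + 1) (c + 1) 0 = w (2 * m + 1) (c + 1) 0 * K (2 * m + 1) c 0 := K_s0 _ _
    have s1 := w_symm m (A + 1) 2 (c + 1) 1 (by omega) (by omega)
    have s2 := w_symm m (A + 1) 3 (c + 1) 0 (by omega) (by omega)
    rw [e2, e1, e3, e4, s1, s2]
    ring

lemma B_conv (m : ℕ) : B 3 (2 * m + 1) =
    ∑ a ∈ Finset.range (m + 3), K (2 * m + 1) a 1 * K (2 * m + 1) (m + 2 - a) 1 := by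
  rw [B_eq, Finset.sum_range_succ, cut m (m + 1) 0 (by omega)]
  have e0 : K (2 * m + 1) 0 0 = 1 := K_00 _
  have e1 : K (2 * m + 1) 0 1 = w (2 * m + 1) 0 1 * K (2 * m + 1) 0 0 := K_0s _ _
  have e2 : K (2 * m + 1) (m + 2) 2
      = w (2 * m + 1) (m + 2) 2 * (K (2 * m + 1) (m + 1) 2 + K (2 * m + 1) (m + 2) 1) := K_ss _ _ _
  have s1 := w_symm m (m + 2) 2 0 1 (by omega) (by omega)
  have h0 : m + 2 - (m + 2) = 0 := by omega
  rw [h0, e2, e1, e0, s1]
  ring

/-- Closed form of the one-row weights. -/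
lemma K_zero (m : ℕ) : ∀ a c : ℕ, a + c = m →
    K (2 * m + 1) a 0 = (m ! : ℝ) * ((2 * c)! : ℝ) / (4 ^ a * (a ! : ℝ) * (c ! : ℝ) * ((2 * m)! : ℝ)) := by
  intro a
  induction a with
  | zero =>
    intro c hc
    have hc' : c = m := by omega
    subst hc'
    rw [K_00]
    have h1 : (c ! : ℝ) ≠ 0 := by positivity
    have h2 : ((2 * c)! : ℝ) ≠ 0 := by positivity
    field_simp
    simp
  | succ a ih =>
    intro c hc
    rw [K_s0, ih (c + 1) (by omega)]
    have hm : (m : ℝ) = a + c + 1 := by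
      have : m = a + c + 1 := by omega
      rw [this]; push_cast; ring
    have hw : w (2 * m + 1) (a + 1) 0 = 1 / (8 * ((a : ℝ) + 1) * (2 * c + 1)) := by
      unfold w
      push_cast
      rw [hm]
      congr 1
      ring
    rw [hw]
    have f1 : ((2 * (c + 1))! : ℝ) = (2 * c + 2) * (2 * c + 1) * ((2 * c)! : ℝ) := by
      have : 2 * (c + 1) = (2 * c + 1) + 1 := by ring
      rw [this, Nat.factorial_succ, Nat.factorial_succ]
      push_cast
      ring
    have f2 : ((c + 1)! : ℝ) = (c + 1) * (c ! : ℝ) := by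
      rw [Nat.factorial_succ]; push_cast; ring
    have f3 : ((a + 1)! : ℝ) = (a + 1) * (a ! : ℝ) := by
      rw [Nat.factorial_succ]; push_cast; ring
    rw [f1, f2, f3]
    have h1 : (c ! : ℝ) ≠ 0 := by positivity
    have h2 : ((2 * m)! : ℝ) ≠ 0 := by positivity
    have h3 : (a ! : ℝ) ≠ 0 := by positivity
    have h4 : (a : ℝ) + 1 ≠ 0 := by positivity
    have h5 : (c : ℝ) + 1 ≠ 0 := by positivity
    have h6 : 2 * (c : ℝ) + 1 ≠ 0 := by positivity
    field_simp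
    ring

/-- Closed form of the two-row weights. -/
lemma K_one (m : ℕ) (hm0 : 1 ≤ m) : ∀ a c : ℕ, a + c = m →
    K (2 * m + 1) a 1 = (2 * a - m) / (8 * m * (m + 1)) * K (2 * m + 1) a 0 := by
  intro a
  have hmR : (m : ℝ) ≠ 0 := by
    have : 0 < m := by omega
    positivity
  have hmR' : (m : ℝ) + 1 ≠ 0 := by positivity
  induction a with
  | zero =>
    intro c hc
    have e0 : K (2 * m + 1) 0 0 = 1 := K_00 _
    have e1 : K (2 * m + 1) 0 1 = w (2 * m + 1) 0 1 * K (2 * m + 1) 0 0 := K_0s _ _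
    rw [e1, e0]
    unfold w
    push_cast
    have : (2 * (m : ℝ) + 1) ^ 2 - (2 * m + 1 - 4 * 0 + 2 * 1) ^ 2 = -(8 * (m + 1)) := by ring
    rw [this]
    field_simp
    ring
  | succ a ih =>
    intro c hc
    have hm : (m : ℝ) = a + c + 1 := by
      have : m = a + c + 1 := by omega
      rw [this]; push_cast; ring
    have e1 : K (2 * m + 1) (a + 1) 1
        = w (2 * m + 1) (a + 1) 1 * (K (2 * m + 1) a 1 + K (2 * m + 1) (a + 1) 0) := K_ss _ _ _
    have e2 : K (2 * m + 1) (a + 1) 0 = w (2 * m + 1) (a + 1) 0 * K (2 * m + 1) a 0 := K_s0 _ _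
    rw [e1, e2, ih (c + 1) (by omega)]
    have hw1 : w (2 * m + 1) (a + 1) 1 = 1 / (8 * (2 * (a : ℝ) + 1) * (c + 1)) := by
      unfold w
      push_cast
      rw [hm]
      congr 1
      ring
    have hw0 : w (2 * m + 1) (a + 1) 0 = 1 / (8 * ((a : ℝ) + 1) * (2 * c + 1)) := by
      unfold w
      push_cast
      rw [hm]
      congr 1
      ring
    rw [hw1, hw0]
    have h1 : 2 * (a : ℝ) + 1 ≠ 0 := by positivity
    have h2 : (c : ℝ) + 1 ≠ 0 := by positivity
    have h3 : (a : ℝ) + 1 ≠ 0 := by positivity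
    have h4 : 2 * (c : ℝ) + 1 ≠ 0 := by positivity
    have h5 : (a : ℝ) + c + 1 ≠ 0 := by positivity
    have h6 : (a : ℝ) + c + 1 + 1 ≠ 0 := by positivity
    rw [hm]
    push_cast
    field_simp
    ring

/-- `u k = (2k)! / (k! (k+2)!)`. -/
noncomputable def u (k : ℕ) : ℝ := ((2 * k)! : ℝ) / ((k ! : ℝ) * ((k + 2)! : ℝ))

lemma u_succ (k : ℕ) : u (k + 1) * ((k : ℝ) + 3) = 2 * (2 * (k : ℝ) + 1) * u k := by
  unfold u
  have f1 : ((2 * (k + 1))! : ℝ) = (2 * k + 2) * (2 * k + 1) * ((2 * k)! : ℝ) := by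
    have : 2 * (k + 1) = (2 * k + 1) + 1 := by ring
    rw [this, Nat.factorial_succ, Nat.factorial_succ]
    push_cast
    ring
  have f2 : ((k + 1)! : ℝ) = (k + 1) * (k ! : ℝ) := by
    rw [Nat.factorial_succ]; push_cast; ring
  have f3 : ((k + 1 + 2)! : ℝ) = (k + 3) * ((k + 2)! : ℝ) := by
    have : k + 1 + 2 = (k + 2) + 1 := by ring
    rw [this, Nat.factorial_succ]; push_cast; ring
  rw [f1, f2, f3]
  have h1 : (k ! : ℝ) ≠ 0 := by positivity
  have h2 : ((k + 2)! : ℝ) ≠ 0 := by positivity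
  have h3 : (k : ℝ) + 1 ≠ 0 := by positivity
  have h4 : (k : ℝ) + 3 ≠ 0 := by positivity
  field_simp

lemma u_zero : u 0 = 1 / 2 := by
  unfold u; norm_num [Nat.factorial]

/-- The telescoping certificate; `M = (N+1)(N+4)`. -/
noncomputable def T (M : ℝ) (k l : ℕ) : ℝ :=
  ((k : ℝ) + 2) * ((l : ℝ) + 2) *
    ((13 * M + 32) / (6 * M * (M + 2)) * ((k : ℝ) - l)
      - (M + 8) / (6 * M * (M + 2)) * ((k : ℝ) - l) ^ 3) * (u k * u l)

lemma T_step (M : ℝ) (k l : ℕ) (hM : M = ((k : ℝ) + l + 1) * (k + l + 4)) :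
    T M (k + 1) l - T M k (l + 1) = (4 - ((k : ℝ) - l) ^ 2) * (u k * u l) := by
  have hk : u (k + 1) = 2 * (2 * (k : ℝ) + 1) * u k / ((k : ℝ) + 3) := by
    rw [← u_succ, mul_div_assoc, div_self (by positivity), mul_one]
  have hl : u (l + 1) = 2 * (2 * (l : ℝ) + 1) * u l / ((l : ℝ) + 3) := by
    rw [← u_succ, mul_div_assoc, div_self (by positivity), mul_one]
  have hM0 : M ≠ 0 := by rw [hM]; positivity
  have hM2 : M + 2 ≠ 0 := by rw [hM]; positivity
  have hk3 : (k : ℝ) + 3 ≠ 0 := by positivity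
  have hl3 : (l : ℝ) + 3 ≠ 0 := by positivity
  unfold T
  rw [hk, hl]
  have key : (((k + 1 : ℕ) : ℝ) + 2) * ((l : ℝ) + 2) *
      ((13 * M + 32) / (6 * M * (M + 2)) * (((k + 1 : ℕ) : ℝ) - l)
        - (M + 8) / (6 * M * (M + 2)) * (((k + 1 : ℕ) : ℝ) - l) ^ 3)
        * (2 * (2 * (k : ℝ) + 1) / ((k : ℝ) + 3))
      - ((k : ℝ) + 2) * (((l + 1 : ℕ) : ℝ) + 2) *
      ((13 * M + 32) / (6 * M * (M + 2)) * ((k : ℝ) - ((l + 1 : ℕ) : ℝ))
        - (M + 8) / (6 * M * (M + 2)) * ((k : ℝ) - ((l + 1 : ℕ) : ℝ)) ^ 3)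
        * (2 * (2 * (l : ℝ) + 1) / ((l : ℝ) + 3))
      = 4 - ((k : ℝ) - l) ^ 2 := by
    push_cast
    rw [hM] at hM0 hM2 ⊢
    field_simp
    ring
  calc _ = ((((k + 1 : ℕ) : ℝ) + 2) * ((l : ℝ) + 2) *
      ((13 * M + 32) / (6 * M * (M + 2)) * (((k + 1 : ℕ) : ℝ) - l)
        - (M + 8) / (6 * M * (M + 2)) * (((k + 1 : ℕ) : ℝ) - l) ^ 3)
        * (2 * (2 * (k : ℝ) + 1) / ((k : ℝ) + 3))
      - ((k : ℝ) + 2) * (((l + 1 : ℕ) : ℝ) + 2) *
      ((13 * M + 32) / (6 * M * (M + 2)) * ((k : ℝ) - ((l + 1 : ℕ) : ℝ))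
        - (M + 8) / (6 * M * (M + 2)) * ((k : ℝ) - ((l + 1 : ℕ) : ℝ)) ^ 3)
        * (2 * (2 * (l : ℝ) + 1) / ((l : ℝ) + 3))) * (u k * u l) := by ring
    _ = _ := by rw [key]

lemma tel (N : ℕ) (M : ℝ) (hM : M = ((N : ℝ) + 1) * (N + 4)) : ∀ k l : ℕ, k + l = N + 1 →
    ∑ i ∈ Finset.range k, (4 - ((i : ℝ) - ((N - i : ℕ) : ℝ)) ^ 2) * (u i * u (N - i))
      = T M k l - T M 0 (N + 1) := by
  intro k
  induction k with
  | zero =>
    intro l hl
    have : l = N + 1 := by omega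
    subst this
    simp
  | succ k ih =>
    intro l hl
    rw [Finset.sum_range_succ, ih (l + 1) (by omega)]
    have h1 : N - k = l := by omega
    have h2 : (N : ℝ) = k + l := by
      have : N = k + l := by omega
      rw [this]; push_cast; ring
    rw [h1, ← T_step M k l (by rw [hM, h2])]
    ring

lemma total (N : ℕ) (M : ℝ) (hM : M = ((N : ℝ) + 1) * (N + 4)) :
    ∑ i ∈ Finset.range (N + 1), (4 - ((i : ℝ) - ((N - i : ℕ) : ℝ)) ^ 2) * (u i * u (N - i))
      = 2 * ((N : ℝ) + 3) * (N + 1) *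
        ((13 * M + 32) / (6 * M * (M + 2)) - (M + 8) / (6 * M * (M + 2)) * ((N : ℝ) + 1) ^ 2)
          * u (N + 1) := by
  rw [tel N M hM (N + 1) 0 (by omega)]
  unfold T
  rw [u_zero]
  push_cast
  ring

lemma interior (i l : ℕ) :
    K (2 * (i + l + 2) + 1) (i + 2) 1 * K (2 * (i + l + 2) + 1) (l + 2) 1
      = (((i + l + 2)! : ℝ)) ^ 2 /
          (4 ^ (i + l + 4) * ((2 * (i + l + 2))! : ℝ) ^ 2 *
            (8 * ((i : ℝ) + l + 2) * ((i : ℝ) + l + 3)) ^ 2)
        * ((4 - ((i : ℝ) - l) ^ 2) * (u i * u l)) := by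
  rw [K_one (i + l + 2) (by omega) (i + 2) l (by omega),
    K_one (i + l + 2) (by omega) (l + 2) i (by omega),
    K_zero (i + l + 2) (i + 2) l (by omega), K_zero (i + l + 2) (l + 2) i (by omega)]
  unfold u
  have h1 : ((i + 2)! : ℝ) ≠ 0 := by positivity
  have h2 : ((l + 2)! : ℝ) ≠ 0 := by positivity
  have h3 : (i ! : ℝ) ≠ 0 := by positivity
  have h4 : (l ! : ℝ) ≠ 0 := by positivity
  have h5 : ((2 * (i + l + 2))! : ℝ) ≠ 0 := by positivity
  have h6 : (i : ℝ) + l + 2 ≠ 0 := by positivity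
  have h7 : (i : ℝ) + l + 2 + 1 ≠ 0 := by positivity
  have h8 : (i : ℝ) + l + 3 ≠ 0 := by positivity
  have h9 : (4 : ℝ) ^ (i + l + 4) = 4 ^ (i + 2) * 4 ^ (l + 2) := by
    rw [← pow_add]; congr 1; ring
  rw [h9]
  push_cast
  have h10 : (i : ℝ) + l + 2 + 1 = (i : ℝ) + l + 3 := by ring
  rw [h10]
  field_simp
  ring

lemma split_sum (N : ℕ) (f : ℕ → ℝ) : ∑ a ∈ Finset.range (N + 5), f a
    = (∑ i ∈ Finset.range (N + 1), f (i + 2)) + f 0 + f 1 + f (N + 3) + f (N + 4) := by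
  rw [Finset.sum_range_succ, Finset.sum_range_succ, Finset.sum_range_succ', Finset.sum_range_succ']
  ring

/-- The exact formula. -/
theorem exact (m : ℕ) (hm : 2 ≤ m) : B 3 (2 * m + 1) =
    3 * ((m : ℝ) + 2) / (1024 * 4 ^ m * ((2 * m)! : ℝ) * (m : ℝ) ^ 2 * ((m : ℝ) + 1) ^ 3
      * (2 * m - 1) * (2 * m + 3)) := by
  obtain ⟨N, rfl⟩ : ∃ N, m = N + 2 := ⟨m - 2, by omega⟩
  rw [B_conv, split_sum N (fun a => K (2 * (N + 2) + 1) a 1 * K (2 * (N + 2) + 1) (N + 2 + 2 - a) 1)]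
  have hN : ((N + 2 : ℕ) : ℝ) = (N : ℝ) + 2 := by push_cast; ring
  have s0 : N + 2 + 2 - 0 = N + 4 := by omega
  have s1 : N + 2 + 2 - 1 = N + 3 := by omega
  have s3 : N + 2 + 2 - (N + 3) = 1 := by omega
  have s4 : N + 2 + 2 - (N + 4) = 0 := by omega
  simp only [s0, s1, s3, s4]
  -- the vanishing weight
  have z1 : K (2 * (N + 2) + 1) (N + 3) 1 = 0 := by
    have hz : w (2 * (N + 2) + 1) (N + 3) 1 = 0 := by
      unfold w
      push_cast
      have : (2 * ((N : ℝ) + 2) + 1) ^ 2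
          - (2 * ((N : ℝ) + 2) + 1 - 4 * ((N : ℝ) + 3) + 2 * 1) ^ 2 = 0 := by ring
      rw [this]; simp
    have := K_ss (2 * (N + 2) + 1) (N + 2) 0
    simp only [zero_add] at this
    have e : N + 2 + 1 = N + 3 := rfl
    rw [e] at this
    rw [this, hz, zero_mul]
  -- the boundary weights
  have b0 : K (2 * (N + 2) + 1) 0 1 = -1 / (8 * ((N : ℝ) + 3)) := by
    have := K_0s (2 * (N + 2) + 1) 0
    simp only [zero_add] at this
    rw [this, K_00]
    unfold w
    push_cast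
    have e : (2 * ((N : ℝ) + 2) + 1) ^ 2 - (2 * ((N : ℝ) + 2) + 1 - 4 * 0 + 2 * 1) ^ 2
        = -(8 * (N + 3)) := by ring
    rw [e]
    have h1 : (N : ℝ) + 3 ≠ 0 := by positivity
    field_simp
  have b2 : K (2 * (N + 2) + 1) (N + 2) 0 = 1 / (4 ^ (N + 2) * ((2 * (N + 2))! : ℝ)) := by
    rw [K_zero (N + 2) (N + 2) 0 (by omega)]
    have h1 : ((N + 2)! : ℝ) ≠ 0 := by positivity
    simp
    field_simp
  have b3 : K (2 * (N + 2) + 1) (N + 3) 0
      = -1 / (8 * ((N : ℝ) + 3)) * (1 / (4 ^ (N + 2) * ((2 * (N + 2))! : ℝ))) := by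
    have := K_s0 (2 * (N + 2) + 1) (N + 2)
    have e : N + 2 + 1 = N + 3 := rfl
    rw [e] at this
    rw [this, b2]
    congr 1
    unfold w
    push_cast
    have e : (2 * ((N : ℝ) + 2) + 1) ^ 2 - (2 * ((N : ℝ) + 2) + 1 - 4 * (N + 3) + 2 * 0) ^ 2
        = -(8 * (N + 3)) := by ring
    rw [e]
    have h1 : (N : ℝ) + 3 ≠ 0 := by positivity
    field_simp
  have b4 : K (2 * (N + 2) + 1) (N + 4) 0
      = -1 / (24 * ((N : ℝ) + 4)) *
        (-1 / (8 * ((N : ℝ) + 3)) * (1 / (4 ^ (N + 2) * ((2 * (N + 2))! : ℝ)))) := by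
    have := K_s0 (2 * (N + 2) + 1) (N + 3)
    have e : N + 3 + 1 = N + 4 := rfl
    rw [e] at this
    rw [this, b3]
    congr 1
    unfold w
    push_cast
    have e : (2 * ((N : ℝ) + 2) + 1) ^ 2 - (2 * ((N : ℝ) + 2) + 1 - 4 * (N + 4) + 2 * 0) ^ 2
        = -(24 * (N + 4)) := by ring
    rw [e]
    have h1 : (N : ℝ) + 4 ≠ 0 := by positivity
    field_simp
  have b5 : K (2 * (N + 2) + 1) (N + 4) 1 = -1 / (8 * (2 * (N : ℝ) + 7)) *
      (-1 / (24 * ((N : ℝ) + 4)) *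
        (-1 / (8 * ((N : ℝ) + 3)) * (1 / (4 ^ (N + 2) * ((2 * (N + 2))! : ℝ))))) := by
    have := K_ss (2 * (N + 2) + 1) (N + 3) 0
    simp only [zero_add] at this
    have e : N + 3 + 1 = N + 4 := rfl
    rw [e] at this
    rw [this, z1, b4, zero_add]
    congr 1
    unfold w
    push_cast
    have e : (2 * ((N : ℝ) + 2) + 1) ^ 2 - (2 * ((N : ℝ) + 2) + 1 - 4 * (N + 4) + 2 * 1) ^ 2
        = -(8 * (2 * N + 7)) := by ring
    rw [e]
    have h1 : 2 * (N : ℝ) + 7 ≠ 0 := by positivity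
    field_simp
  have hint : ∑ i ∈ Finset.range (N + 1),
      K (2 * (N + 2) + 1) (i + 2) 1 * K (2 * (N + 2) + 1) (N + 2 + 2 - (i + 2)) 1
      = (((N + 2)! : ℝ)) ^ 2 /
          (4 ^ (N + 4) * ((2 * (N + 2))! : ℝ) ^ 2 *
            (8 * ((N : ℝ) + 2) * ((N : ℝ) + 3)) ^ 2) *
        ∑ i ∈ Finset.range (N + 1), (4 - ((i : ℝ) - ((N - i : ℕ) : ℝ)) ^ 2) * (u i * u (N - i)) := by
    rw [Finset.mul_sum]
    apply Finset.sum_congr rfl
    intro i hi
    have hi' : i ≤ N := by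
      have := Finset.mem_range.mp hi
      omega
    obtain ⟨l, rfl⟩ : ∃ l, N = i + l := ⟨N - i, by omega⟩
    have e1 : i + l + 2 + 2 - (i + 2) = l + 2 := by omega
    have e2 : i + l - i = l := by omega
    rw [e1, e2, interior i l]
    push_cast
    ring
  rw [hint, total N (((N : ℝ) + 1) * (N + 4)) rfl, z1, b0, b5]
  -- the last value of u
  have hu : u (N + 1) = ((2 * (N + 2))! : ℝ) /
      (2 * (2 * (N : ℝ) + 3) * (N + 3) * (((N + 2)! : ℝ)) ^ 2) := by
    unfold u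
    have f1 : ((2 * (N + 2))! : ℝ) = (2 * N + 4) * (2 * N + 3) * ((2 * (N + 1))! : ℝ) := by
      have : 2 * (N + 2) = (2 * (N + 1) + 1) + 1 := by ring
      rw [this, Nat.factorial_succ, Nat.factorial_succ]
      push_cast
      ring
    have f2 : ((N + 2)! : ℝ) = (N + 2) * ((N + 1)! : ℝ) := by
      rw [Nat.factorial_succ]; push_cast; ring
    have f3 : ((N + 1 + 2)! : ℝ) = (N + 3) * ((N + 2)! : ℝ) := by
      have : N + 1 + 2 = (N + 2) + 1 := by ring
      rw [this, Nat.factorial_succ]; push_cast; ring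
    rw [f1, f3, f2]
    have h1 : ((N + 1)! : ℝ) ≠ 0 := by positivity
    have h2 : (N : ℝ) + 2 ≠ 0 := by positivity
    have h3 : (N : ℝ) + 3 ≠ 0 := by positivity
    have h4 : 2 * (N : ℝ) + 3 ≠ 0 := by positivity
    field_simp
    ring
  rw [hu, hN]
  have h1 : ((N + 2)! : ℝ) ≠ 0 := by positivity
  have h2 : ((2 * (N + 2))! : ℝ) ≠ 0 := by positivity
  have h3 : (N : ℝ) + 2 ≠ 0 := by positivity
  have h4 : (N : ℝ) + 3 ≠ 0 := by positivity
  have h5 : (N : ℝ) + 4 ≠ 0 := by positivity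
  have h6 : 2 * (N : ℝ) + 3 ≠ 0 := by positivity
  have h7 : 2 * (N : ℝ) + 7 ≠ 0 := by positivity
  have h8 : (N : ℝ) + 1 ≠ 0 := by positivity
  have h9 : ((N : ℝ) + 1) * (N + 4) + 2 = (N + 2) * (N + 3) := by ring
  have h10 : 2 * ((N : ℝ) + 2) - 1 = 2 * N + 3 := by ring
  have h11 : 2 * ((N : ℝ) + 2) + 3 = 2 * N + 7 := by ring
  have h12 : (N : ℝ) + 2 + 1 = N + 3 := by ring
  have h13 : (4 : ℝ) ^ (N + 4) = 4 ^ (N + 2) * 16 := by
    rw [show N + 4 = (N + 2) + 2 by ring, pow_add]; norm_num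
  rw [h9, h10, h11, h12, h13]
  have h14 : (4 : ℝ) ^ (N + 2) ≠ 0 := by positivity
  generalize (4 : ℝ) ^ (N + 2) = q4 at *
  generalize ((N + 2)! : ℝ) = q1 at *
  generalize ((2 * (N + 2))! : ℝ) = q2 at *
  field_simp
  ring

lemma exact_pos (m : ℕ) (hm : 2 ≤ m) : 0 < B 3 (2 * m + 1) := by
  rw [exact m hm]
  have hmR : (2 : ℝ) ≤ (m : ℝ) := by exact_mod_cast hm
  have h1 : (0 : ℝ) < 2 * m - 1 := by linarith
  have h2 : (0 : ℝ) < (m : ℝ) := by linarith
  positivity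

lemma upper (m : ℕ) (hm : 2 ≤ m) : |B 3 (2 * m + 1)| ≤ 1 / ((2 * m)! : ℝ) := by
  rw [abs_of_pos (exact_pos m hm), exact m hm]
  have hmR : (2 : ℝ) ≤ (m : ℝ) := by exact_mod_cast hm
  have hf : (0 : ℝ) < ((2 * m)! : ℝ) := by positivity
  have h4 : (1 : ℝ) ≤ 4 ^ m := one_le_pow₀ (by norm_num)
  have h1 : (1 : ℝ) ≤ 2 * m - 1 := by linarith
  have h2 : (1 : ℝ) ≤ 2 * m + 3 := by linarith
  have h3 : (1 : ℝ) ≤ (m : ℝ) ^ 2 := one_le_pow₀ (by linarith)
  have h5 : (1 : ℝ) ≤ ((m : ℝ) + 1) ^ 2 := one_le_pow₀ (by linarith)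
  rw [div_le_div_iff₀ (by positivity) hf]
  have h6 : (m : ℝ) + 2 ≤ 1024 / 3 * (m + 1) := by linarith
  have h7 : 3 * ((m : ℝ) + 2) ≤ 1024 * 4 ^ m * (m : ℝ) ^ 2 * ((m : ℝ) + 1) ^ 3
      * (2 * m - 1) * (2 * m + 3) := by
    calc 3 * ((m : ℝ) + 2) ≤ 1024 * (m + 1) := by linarith
      _ = 1024 * 1 * 1 * ((m + 1) * 1) * 1 * 1 := by ring
      _ ≤ 1024 * 4 ^ m * (m : ℝ) ^ 2 * ((m + 1) * ((m : ℝ) + 1) ^ 2) * (2 * m - 1) * (2 * m + 3) := by
          gcongr
      _ = _ := by ring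
  nlinarith

lemma poly_le (m : ℕ) (hm : 2 ≤ m) :
    1024 * (m : ℝ) ^ 2 * ((m : ℝ) + 1) ^ 3 * (2 * m - 1) * (2 * m + 3) ≤ 16384 ^ m := by
  have hmR : (2 : ℝ) ≤ (m : ℝ) := by exact_mod_cast hm
  have a1 : (m : ℝ) + 1 ≤ 2 ^ m := by
    have : m + 1 ≤ 2 ^ m := Nat.lt_two_pow_self
    exact_mod_cast this
  have a2 : (m : ℝ) ≤ 2 ^ m := by linarith
  have a3 : 2 * (m : ℝ) + 3 ≤ 4 ^ m := by
    have h4 : (4 : ℝ) ^ m = 2 ^ m * 2 ^ m := by rw [← mul_pow]; norm_num
    rw [h4]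
    nlinarith
  have a4 : 2 * (m : ℝ) - 1 ≤ 4 ^ m := by linarith
  have a5 : (1024 : ℝ) ≤ 32 ^ m := by
    calc (1024 : ℝ) = 32 ^ 2 := by norm_num
      _ ≤ 32 ^ m := pow_le_pow_right₀ (by norm_num) hm
  have b0 : (0 : ℝ) ≤ 2 * m - 1 := by linarith
  calc 1024 * (m : ℝ) ^ 2 * ((m : ℝ) + 1) ^ 3 * (2 * m - 1) * (2 * m + 3)
      ≤ 32 ^ m * (2 ^ m) ^ 2 * (2 ^ m) ^ 3 * 4 ^ m * 4 ^ m := by gcongr
    _ = 16384 ^ m := by
        rw [← pow_mul, ← pow_mul, mul_comm m 2, mul_comm m 3, pow_mul, pow_mul, ← mul_pow,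
          ← mul_pow, ← mul_pow, ← mul_pow]
        norm_num

lemma lower (m : ℕ) (hm : 2 ≤ m) :
    ((1 : ℝ) / 262144) ^ m / (m ! : ℝ) ^ 2 ≤ |B 3 (2 * m + 1)| := by
  rw [abs_of_pos (exact_pos m hm), exact m hm]
  have hmR : (2 : ℝ) ≤ (m : ℝ) := by exact_mod_cast hm
  have h1 : (0 : ℝ) < 2 * m - 1 := by linarith
  have hf1 : (0 : ℝ) < (m ! : ℝ) := by positivity
  have hf2 : (0 : ℝ) < ((2 * m)! : ℝ) := by positivity
  have hcb : ((2 * m)! : ℝ) ≤ 4 ^ m * (m ! : ℝ) ^ 2 := by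
    have h2 : (2 * m)! = Nat.centralBinom m * (m ! * m !) := by
      rw [Nat.centralBinom_eq_two_mul_choose]
      have := Nat.choose_mul_factorial_mul_factorial (show m ≤ 2 * m by omega)
      have e : 2 * m - m = m := by omega
      rw [e] at this
      rw [← this]; ring
    have h3 : Nat.centralBinom m ≤ 4 ^ m := by
      rw [Nat.centralBinom_eq_two_mul_choose]
      calc (2 * m).choose m ≤ 2 ^ (2 * m) := Nat.choose_le_two_pow _ _
        _ = 4 ^ m := by rw [pow_mul]; norm_num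
    rw [h2]
    have h4 : ((Nat.centralBinom m : ℕ) : ℝ) ≤ 4 ^ m := by exact_mod_cast h3
    push_cast
    nlinarith [mul_pos hf1 hf1]
  have hp := poly_le m hm
  have h2 : (0 : ℝ) < (m : ℝ) := by linarith
  rw [one_div, inv_pow, div_eq_mul_inv, ← mul_inv, ← one_div,
    div_le_div_iff₀ (by positivity) (by positivity)]
  have e1 : (262144 : ℝ) ^ m = 4 ^ m * 4 ^ m * 16384 ^ m := by
    rw [← mul_pow, ← mul_pow]; norm_num
  rw [e1]
  calc 1 * (1024 * 4 ^ m * ((2 * m)! : ℝ) * (m : ℝ) ^ 2 * ((m : ℝ) + 1) ^ 3 * (2 * m - 1)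
        * (2 * m + 3))
      = (4 ^ m * ((2 * m)! : ℝ)) * (1024 * (m : ℝ) ^ 2 * ((m : ℝ) + 1) ^ 3 * (2 * m - 1)
        * (2 * m + 3)) := by ring
    _ ≤ (4 ^ m * (4 ^ m * (m ! : ℝ) ^ 2)) * 16384 ^ m := by
        gcongr
    _ = 1 * (4 ^ m * 4 ^ m * 16384 ^ m * (m ! : ℝ) ^ 2) := by ring
    _ ≤ 3 * ((m : ℝ) + 2) * (4 ^ m * 4 ^ m * 16384 ^ m * (m ! : ℝ) ^ 2) := by
        gcongr
        linarith

lemma equiv : Asymptotics.IsEquivalent atTop (fun m : ℕ => B 3 (2 * m + 1))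
    (fun m : ℕ => 3 / (4096 * (m : ℝ) ^ 6 * 4 ^ m * ((2 * m)! : ℝ))) := by
  apply Asymptotics.isEquivalent_of_tendsto_one
  have hg : Tendsto (fun x : ℝ => (1 + 2 * x) / ((1 + x) ^ 3 * (1 - x / 2) * (1 + 3 * x / 2)))
      (nhds 0) (nhds 1) := by
    have : ContinuousAt (fun x : ℝ => (1 + 2 * x) / ((1 + x) ^ 3 * (1 - x / 2) * (1 + 3 * x / 2)))
        0 := by
      apply ContinuousAt.div
      · fun_prop
      · fun_prop
      · norm_num
    have h2 := this.tendsto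
    simpa using h2
  have h1 := hg.comp (tendsto_inv_atTop_nhds_zero_nat (𝕜 := ℝ))
  refine h1.congr' ?_
  filter_upwards [eventually_ge_atTop 2] with m hm
  have hmR : (2 : ℝ) ≤ (m : ℝ) := by exact_mod_cast hm
  simp only [Function.comp, Pi.div_apply]
  rw [exact m hm]
  have h3 : (m : ℝ) ≠ 0 := by positivity
  have h4 : (m : ℝ) + 1 ≠ 0 := by positivity
  have h5 : 2 * (m : ℝ) - 1 ≠ 0 := by
    have : (0 : ℝ) < 2 * m - 1 := by linarith
    exact this.ne'
  have h6 : 2 * (m : ℝ) + 3 ≠ 0 := by positivity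
  have h7 : ((2 * m)! : ℝ) ≠ 0 := by positivity
  have e1 : 1 + (m : ℝ)⁻¹ = (m + 1) / m := by field_simp
  have e2 : 1 - (m : ℝ)⁻¹ / 2 = (2 * m - 1) / (2 * m) := by field_simp
  have e3 : 1 + 3 * (m : ℝ)⁻¹ / 2 = (2 * m + 3) / (2 * m) := by field_simp
  have e4 : 1 + 2 * (m : ℝ)⁻¹ = (m + 2) / m := by field_simp
  rw [e1, e2, e3, e4]
  have h8 : (4 : ℝ) ^ m ≠ 0 := by positivity
  field_simp
  ring

/-- The exact value of `B_3(2m+1)` for every `m ≥ 2`, with its consequences for the order of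
magnitude and the asymptotics. -/
theorem result :
    (∀ m : ℕ, 2 ≤ m → B 3 (2 * m + 1) =
      3 * ((m : ℝ) + 2) / (1024 * 4 ^ m * ((2 * m)! : ℝ) * (m : ℝ) ^ 2 * ((m : ℝ) + 1) ^ 3
        * (2 * m - 1) * (2 * m + 3))) ∧
    (∀ C : ℝ, 0 < C → ∀ᶠ m : ℕ in atTop, |B 3 (2 * m + 1)| < C ^ m / (m ! : ℝ)) ∧
    (∃ C : ℝ, 0 < C ∧ ∀ᶠ m : ℕ in atTop, C ^ m / (m ! : ℝ) ^ 2 ≤ |B 3 (2 * m + 1)|) ∧
    Asymptotics.IsEquivalent atTop (fun m : ℕ => B 3 (2 * m + 1))
      (fun m : ℕ => 3 / (4096 * (m : ℝ) ^ 6 * 4 ^ m * ((2 * m)! : ℝ))) := by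
  refine ⟨exact, ?_, ⟨1 / 262144, by norm_num, ?_⟩, equiv⟩
  · intro C hC
    obtain ⟨N, hN⟩ := exists_nat_ge (1 / C)
    filter_upwards [eventually_ge_atTop (max 2 N)] with m hm
    have hm2 : 2 ≤ m := le_trans (le_max_left _ _) hm
    have hmN : N ≤ m := le_trans (le_max_right _ _) hm
    have hmR : (1 / C) < (m : ℝ) + 1 := by
      have : (N : ℝ) ≤ m := by exact_mod_cast hmN
      linarith
    refine lt_of_le_of_lt (upper m hm2) ?_
    have hf : (0 : ℝ) < (m ! : ℝ) := by positivity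
    have hf2 : (0 : ℝ) < ((2 * m)! : ℝ) := by positivity
    rw [div_lt_div_iff₀ hf2 hf, one_mul]
    have h1 : (m ! : ℝ) * ((m : ℝ) + 1) ^ m ≤ ((2 * m)! : ℝ) := by
      have := Nat.factorial_mul_pow_le_factorial (m := m) (n := m)
      rw [← two_mul] at this
      exact_mod_cast this
    have h2 : 1 < (C * ((m : ℝ) + 1)) ^ m := by
      apply one_lt_pow₀
      · rw [div_lt_iff₀ hC] at hmR
        linarith
      · omega
    have h3 : (0 : ℝ) < C ^ m := by positivity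
    calc (m ! : ℝ) = (m ! : ℝ) * 1 := by ring
      _ < (m ! : ℝ) * (C * ((m : ℝ) + 1)) ^ m := by gcongr
      _ = C ^ m * ((m ! : ℝ) * ((m : ℝ) + 1) ^ m) := by rw [mul_pow]; ring
      _ ≤ C ^ m * ((2 * m)! : ℝ) := by gcongr
  · filter_upwards [eventually_ge_atTop 2] with m hm
    exact lower m hm

end Pool.Agent.Results.MP_46c8ea_co.ExactFormula
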